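import Pool.Agent.QSN.StmtsE

set_option autoImplicit false

namespace Pool.Agent.QSN.H16.UEMm

open Matrix Finset Pool.Agent.QSX Pool.Agent.QSN

variable {p k : ℕ}

/-- the subspace `n` of the datum in a fixed ambient space -/
noncomputable def nn (p : ℕ) {k : ℕ} (𝔻 : Subalgebra ℝ (Matrix (Fin k) (Fin k) ℝ)) (ε : ℝ)
    (hε : ε * ε = 1) : Submodule ℝ (Matrix (Fin (2 * p * k)) (Fin (2 * p * k)) ℝ) :=
  (datU p 𝔻 ε hε).n

theorem mem_nn (𝔻 : Subalgebra ℝ (Matrix (Fin k) (Fin k) ℝ)) (ε : ℝ) (hε : ε * ε = 1)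
    (z : Matrix (Fin (2 * p * k)) (Fin (2 * p * k)) ℝ) :
    z ∈ nn p 𝔻 ε hε ↔ ∃ x ∈ nU p 𝔻 ε, z = blk k (2 * p) x := Iff.rfl

theorem nU_mono {𝔻 𝔻' : Subalgebra ℝ (Matrix (Fin k) (Fin k) ℝ)} (h : 𝔻 ≤ 𝔻') (ε : ℝ)
    {x : Matrix (Fin (2 * p)) (Fin (2 * p)) (Matrix (Fin k) (Fin k) ℝ)} (hx : x ∈ nU p 𝔻 ε) :
    x ∈ nU p 𝔻' ε :=
  ⟨⟨fun i j => h (hx.1.1 i j), hx.1.2⟩, hx.2⟩

theorem nn_mono {𝔻 𝔻' : Subalgebra ℝ (Matrix (Fin k) (Fin k) ℝ)} (h : 𝔻 ≤ 𝔻') (ε : ℝ)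
    (hε : ε * ε = 1) : nn p 𝔻 ε hε ≤ nn p 𝔻' ε hε := by
  rintro z ⟨x, hx, rfl⟩
  exact ⟨x, nU_mono h ε hx, rfl⟩

/-- the test matrix -/
noncomputable def xx (p : ℕ) {k : ℕ} (a : Matrix (Fin k) (Fin k) ℝ) :
    Matrix (Fin (2 * p)) (Fin (2 * p)) (Matrix (Fin k) (Fin k) ℝ) :=
  fun i j => if (i : ℕ) = 0 ∧ (j : ℕ) = 1 then a
    else if (i : ℕ) = 2 * p - 2 ∧ (j : ℕ) = 2 * p - 1 then -aᵀ else 0

theorem xx_mem (hp : 2 ≤ p) (𝔻 : Subalgebra ℝ (Matrix (Fin k) (Fin k) ℝ))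
    (hT : ∀ a ∈ 𝔻, aᵀ ∈ 𝔻) (ε : ℝ) (hε : ε * ε = 1) (a : Matrix (Fin k) (Fin k) ℝ) (ha : a ∈ 𝔻) :
    xx p a ∈ nU p 𝔻 ε := by
  refine ⟨⟨fun i j => ?_, fun i j h => ?_⟩, fun i j => ?_⟩
  · unfold xx
    split_ifs
    · exact ha
    · exact 𝔻.neg_mem (hT a ha)
    · exact 𝔻.zero_mem
  · rw [Fin.le_def] at h
    unfold xx
    rw [if_neg (by omega), if_neg (by omega)]
  · have hi := i.2
    have hj := j.2
    unfold xx
    rw [Fin.val_rev, Fin.val_rev]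
    by_cases h1 : (i : ℕ) = 0 ∧ (j : ℕ) = 1
    · rw [if_neg (by omega), if_pos (by omega), if_pos h1]
      have s1 : sU p ε i = 1 := by unfold sU; rw [if_pos (by omega)]
      have s2 : sU p ε j = 1 := by unfold sU; rw [if_pos (by omega)]
      rw [s1, s2, mul_one, neg_smul, one_smul]
    · by_cases h2 : (i : ℕ) = 2 * p - 2 ∧ (j : ℕ) = 2 * p - 1
      · rw [if_pos (by omega), if_neg h1, if_pos h2]
        have s1 : sU p ε i = ε := by unfold sU; rw [if_neg (by omega)]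
        have s2 : sU p ε j = ε := by unfold sU; rw [if_neg (by omega)]
        rw [s1, s2, hε, neg_smul, one_smul, Matrix.transpose_neg, Matrix.transpose_transpose,
          neg_neg]
      · rw [if_neg (by omega), if_neg (by omega), if_neg h1, if_neg h2, Matrix.transpose_zero,
          smul_zero]

end Pool.Agent.QSN.H16.UEMm

namespace Pool.Agent.QSN.H16

open Matrix Finset Pool.Agent.QSX Pool.Agent.QSN UEMm

theorem uem : UemStmt := by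
  intro k p 𝔻 𝔻' ε hε hk hp hT
  refine ⟨fun h => ?_, rfl, fun h => ?_⟩
  · have hle := nn_mono (p := p) h ε hε
    exact ⟨(datU p 𝔻 ε hε).n.subtype, (datU p 𝔻 ε hε).b.subtype, fun x => hle x.2, fun a => a.2,
      Subtype.val_injective, Subtype.val_injective, fun _ _ => rfl, fun _ _ => rfl⟩
  · have hlt : nn p 𝔻 ε hε < nn p 𝔻' ε hε := by
      refine lt_of_le_of_ne (nn_mono h.le ε hε) fun he => ?_
      obtain ⟨a, ha, ha'⟩ := SetLike.exists_of_lt h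
      have h1 : blk k (2 * p) (xx p a) ∈ nn p 𝔻' ε hε := ⟨_, xx_mem hp 𝔻' hT ε hε a ha, rfl⟩
      rw [← he] at h1
      obtain ⟨y, hy, hxy⟩ := h1
      have h2 : xx p a = y := (blk k (2 * p)).injective hxy
      have h3 := hy.1.1 ⟨0, by omega⟩ ⟨1, by omega⟩
      rw [← h2] at h3
      apply ha'
      have h4 : xx p a ⟨0, by omega⟩ ⟨1, by omega⟩ = a := by
        unfold xx
        rw [if_pos ⟨rfl, rfl⟩]
      rwa [h4] at h3
    have := Submodule.finrank_lt_finrank_of_lt hlt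
    exact this

end Pool.Agent.QSN.H16
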